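import Pool.Agent.Helper106.CG.Growth
import Pool.Agent.Helper106.CG.A1
import Pool.Agent.Helper106.CG.A2
import Pool.Agent.Helper106.CG.B1
import Pool.Agent.Helper106.CG.B2
import Pool.Agent.Helper106.CG.B3
import Pool.Agent.Helper106.CG.B4
import Pool.Agent.Helper106.CG.C1
import Pool.Agent.Helper106.CG.C3
import Pool.Agent.Helper106.CG.C4
import Pool.Agent.Helper106.CG.TD1
import Pool.Agent.Helper106.CG.D2
import Pool.Agent.Helper106.CG.E1
import Pool.Agent.Helper106.CG.E2

/-!
# A finitely generated group with finite outer automorphism group whose normal and characteristic subgroup growth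
# types differ (MP_216434_al, Q1: the answer is no)

The group is `Γ = B ⋊ D`. `T` is a just infinite group of automorphisms of the `7`-regular rooted tree (generated by the
rooted elements `s` and the directed elements `b_s`, for `s` in the automorphism group of the Fano plane), `M` is a
residually finite `T`-module whose finite quotients are sums of `𝔽_p`-modules `M_n`, one prime `p = p_n` for each
level, `D = (M × M) ⋊ T`, and `B` is the group of the functions with values in `Alt(5)` on the disjoint union of four
coset spaces of `D` which are almost constant on each of them.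
-/

namespace Pool.Agent.Results.MP_216434_al.FiniteOut

/-- `s_n^◁(Γ)`: the number of normal subgroups of `Γ` of (finite) index at most `n`. -/
noncomputable def sNormal (Γ : Type) [Group Γ] (n : ℕ) : ℕ :=
  Set.ncard {N : Subgroup Γ | N.Normal ∧ N.index ≠ 0 ∧ N.index ≤ n}

/-- `s_n^ch(Γ)`: the number of characteristic subgroups of `Γ` of (finite) index at most `n`. -/
noncomputable def sChar (Γ : Type) [Group Γ] (n : ℕ) : ℕ :=
  Set.ncard {N : Subgroup Γ | N.Characteristic ∧ N.index ≠ 0 ∧ N.index ≤ n}

/-- `g` has growth type `f`: there are constants `a, b > 0` with `g(n) ≤ f(n)^a` for every `n ≥ 1` and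
`g(n) ≥ f(n)^b` for infinitely many `n`. -/
def HasGrowthType (g : ℕ → ℕ) (f : ℕ → ℝ) : Prop :=
  ∃ a b : ℝ, 0 < a ∧ 0 < b ∧ (∀ n, 1 ≤ n → (g n : ℝ) ≤ f n ^ a) ∧ ∀ N, ∃ n, N ≤ n ∧ f n ^ b ≤ (g n : ℝ)

open Pool.Agent.Helper106.CG in
/-- There is a finitely generated group `Γ` with `Out(Γ)` finite such that, for every `K`, the number of normal
subgroups of index at most `n` is larger than the `K`-th power of the number of characteristic subgroups of index at
most `n`, for all large `n`; in particular no function is a growth type of both. -/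
theorem result :
    ∃ (Γ : Type) (_ : Group Γ), Group.FG Γ ∧
      Finite (MulAut Γ ⧸ (MulAut.conj : Γ →* MulAut Γ).range) ∧
      (∀ n, {N : Subgroup Γ | N.Normal ∧ N.index ≠ 0 ∧ N.index ≤ n}.Finite) ∧
      (∀ K : ℕ, ∃ N₀, ∀ n, N₀ ≤ n → sChar Γ n ^ K < sNormal Γ n) ∧
      ¬ ∃ f : ℕ → ℝ, (∀ n, 0 ≤ f n) ∧ HasGrowthType (sChar Γ) f ∧ HasGrowthType (sNormal Γ) f := by
  have hT := a_trans
  have hR := a_rank
  have hP := a_perfect
  have hS := a_simple
  have hAc := Pool.Agent.Helper106.CG.a_coinv hT
  have hAf := a_fix hT
  have hAi := a_irr hT hR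
  have hinc := b_inc hT hP
  have hdec := b_dec
  have hperf := b_perfect hP
  have happ := b_incAt_apply
  have hat := b_incAt hinc
  have hsec := b_sec hdec
  have htr := b_trans hT hinc
  have hStp := b_St_perfect hinc hdec hperf
  have hidx := b_index hinc hdec
  have hnorm := b_normal hT hS hinc hdec hperf
  have hst := b_stab hT hat
  have hrig := b_rigid a_norm hT hinc hsec b_fg hst htr hnorm hidx hat happ
  have hle := c_Mn_le hT hAc happ hat htr
  have hco := c_coinv hT hAc happ hat htr
  have hirr := c_irr hAf hAi happ hat htr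
  have hfix := c_fix hAf happ hat
  have hfaith := c_faith hle
  have hlam := c_lam hAf b_nuc c_prj hle
  have hthin := c_thin hle
  have hend := c_end hR happ hat c_prj hirr hle hco
  exact main hS hidx hrig (d_fg b_fg c_fg) (d_upper hT hidx hnorm c_prj hle hco hirr hStp)
    (d_lower hidx hnorm c_prj c_Mn_card hco hle) (d_marks hst hfix hfaith hlam) (d_aut htr hle hend hthin)
    e_fg e_char e_out f_fin

end Pool.Agent.Results.MP_216434_al.FiniteOut
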